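import Mathlib
import Pool.Agent.BraidOrbits.Defs

section

/-! The homomorphism from `SL(2,ℤ)` onto the wallpaper group p6, from the free product
decomposition of `PSL(2,ℤ)` (ping-pong). -/

namespace Pool.Agent.BraidOrbits

open Matrix MatrixGroups ModularGroup

/-- affine maps `z ↦ M z + t` of the plane `ℤ²` with `M` in `SL(2,ℤ)` -/
@[ext] structure Aff where
  /-- linear part -/
  M : SL(2, ℤ)
  /-- translation part -/
  t : Fin 2 → ℤ

namespace Aff

instance : Mul Aff := ⟨fun g h => ⟨g.M * h.M, (g.M : Matrix (Fin 2) (Fin 2) ℤ).mulVec h.t + g.t⟩⟩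
instance : One Aff := ⟨⟨1, 0⟩⟩
instance : Inv Aff := ⟨fun g => ⟨g.M⁻¹, -((g.M⁻¹ : SL(2, ℤ)) : Matrix (Fin 2) (Fin 2) ℤ).mulVec g.t⟩⟩

@[simp] lemma mul_M (g h : Aff) : (g * h).M = g.M * h.M := rfl
@[simp] lemma mul_t (g h : Aff) : (g * h).t = (g.M : Matrix (Fin 2) (Fin 2) ℤ).mulVec h.t + g.t := rfl
@[simp] lemma one_M : (1 : Aff).M = 1 := rfl
@[simp] lemma one_t : (1 : Aff).t = 0 := rfl
@[simp] lemma inv_M (g : Aff) : (g⁻¹).M = g.M⁻¹ := rfl
lemma inv_t (g : Aff) : (g⁻¹).t = -((g.M⁻¹ : SL(2, ℤ)) : Matrix (Fin 2) (Fin 2) ℤ).mulVec g.t := rfl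

instance : Group Aff := Group.ofLeftAxioms
  (by
    intro a b c
    ext1
    · simp [mul_assoc]
    · rw [mul_t, mul_t, mul_t, mul_t, mul_M, Matrix.mulVec_add, Matrix.mulVec_mulVec, add_assoc]
      simp only [Matrix.SpecialLinearGroup.coe_mul])
  (by intro a; ext1 <;> simp)
  (by
    intro a
    ext1
    · simp
    · rw [mul_t, inv_M, inv_t, one_t]; simp)

/-- the linear part is a homomorphism -/
def lin : Aff →* SL(2, ℤ) where
  toFun g := g.M
  map_one' := rfl
  map_mul' _ _ := rfl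

end Aff

/-- the action of `SL(2,ℤ)` on binary quadratic forms `(p,q,r)` -/
def act (g : SL(2, ℤ)) (v : ℤ × ℤ × ℤ) : ℤ × ℤ × ℤ :=
  (g 0 0 ^ 2 * v.1 + 2 * g 0 0 * g 0 1 * v.2.1 + g 0 1 ^ 2 * v.2.2,
   g 0 0 * g 1 0 * v.1 + (g 0 0 * g 1 1 + g 0 1 * g 1 0) * v.2.1 + g 0 1 * g 1 1 * v.2.2,
   g 1 0 ^ 2 * v.1 + 2 * g 1 0 * g 1 1 * v.2.1 + g 1 1 ^ 2 * v.2.2)

lemma act_one (v : ℤ × ℤ × ℤ) : act 1 v = v := by
  simp [act]

lemma act_mul (g h : SL(2, ℤ)) (v : ℤ × ℤ × ℤ) : act (g * h) v = act g (act h v) := by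
  obtain ⟨p, q, r⟩ := v
  simp only [act, Matrix.SpecialLinearGroup.coe_mul, Matrix.mul_apply, Fin.sum_univ_two]
  refine Prod.ext ?_ (Prod.ext ?_ ?_) <;> simp only <;> ring

/-- the action as a homomorphism to permutations -/
def perm : SL(2, ℤ) →* Equiv.Perm (ℤ × ℤ × ℤ) where
  toFun g :=
    { toFun := act g
      invFun := act g⁻¹
      left_inv := fun v => by rw [← act_mul, inv_mul_cancel, act_one]
      right_inv := fun v => by rw [← act_mul, mul_inv_cancel, act_one] }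
  map_one' := by ext1 v; exact act_one v
  map_mul' g h := by ext1 v; exact act_mul g h v

@[simp] lemma perm_apply (g : SL(2, ℤ)) (v : ℤ × ℤ × ℤ) : perm g v = act g v := rfl

lemma perm_neg (g : SL(2, ℤ)) : perm (-g) = perm g := by
  ext1 v
  simp only [perm_apply, act, Matrix.SpecialLinearGroup.coe_neg, Matrix.neg_apply]
  refine Prod.ext ?_ (Prod.ext ?_ ?_) <;> simp only <;> ring

/-- the element of order 6, of order 3 modulo the centre -/
def U : SL(2, ℤ) := S * T

lemma perm_S_sq : perm S ^ 2 = 1 := by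
  rw [← map_pow]
  have : (S ^ 2 : SL(2, ℤ)) = -1 := by decide
  rw [this, perm_neg, map_one]

lemma perm_U_cube : perm U ^ 3 = 1 := by
  rw [← map_pow]
  have : (U ^ 3 : SL(2, ℤ)) = -1 := by decide
  rw [this, perm_neg, map_one]

/-- the homomorphism from a cyclic group of order `n` given by an element with `g ^ n = 1` -/
def cyc {G : Type*} [Group G] (n : ℕ) (g : G) (h : g ^ n = 1) : Multiplicative (ZMod n) →* G :=
  AddMonoidHom.toMultiplicativeLeft (ZMod.lift n ⟨zmultiplesHom (Additive G) (Additive.ofMul g), by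
    simp only [zmultiplesHom_apply, natCast_zsmul]
    rw [← ofMul_pow, h]; rfl⟩)

lemma cyc_one {G : Type*} [Group G] (n : ℕ) (g : G) (h : g ^ n = 1) :
    cyc n g h (Multiplicative.ofAdd 1) = g := by
  unfold cyc
  have : (1 : ZMod n) = ((1 : ℤ) : ZMod n) := by simp
  simp only [AddMonoidHom.toMultiplicativeLeft_apply_apply, toAdd_ofAdd]
  rw [this, ZMod.lift_coe]
  simp

/-- the orders of the two factors -/
def ord : Fin 2 → ℕ := ![2, 3]

/-- the two factors, cyclic of order two and three -/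
abbrev Hfac (i : Fin 2) : Type := Multiplicative (ZMod (ord i))

/-- the homomorphisms from the two factors given by two elements -/
def fam {G : Type*} [Group G] (a b : G) (ha : a ^ 2 = 1) (hb : b ^ 3 = 1) :
    ∀ i : Fin 2, Hfac i →* G
  | 0 => cyc 2 a ha
  | 1 => cyc 3 b hb

/-- the free product of the two factors -/
abbrev FP : Type := Monoid.CoprodI Hfac

/-- the homomorphism from the free product given by two elements -/
def lft {G : Type*} [Group G] (a b : G) (ha : a ^ 2 = 1) (hb : b ^ 3 = 1) : FP →* G :=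
  Monoid.CoprodI.lift (fam a b ha hb)

/-- the generator of order two -/
def gS : FP := Monoid.CoprodI.of (i := (0 : Fin 2)) (Multiplicative.ofAdd (1 : ZMod 2))

/-- the generator of order three -/
def gU : FP := Monoid.CoprodI.of (i := (1 : Fin 2)) (Multiplicative.ofAdd (1 : ZMod 3))

lemma lft_gS {G : Type*} [Group G] (a b : G) (ha : a ^ 2 = 1) (hb : b ^ 3 = 1) :
    lft a b ha hb gS = a := by
  unfold lft gS
  rw [Monoid.CoprodI.lift_of]
  exact cyc_one 2 a ha

lemma lft_gU {G : Type*} [Group G] (a b : G) (ha : a ^ 2 = 1) (hb : b ^ 3 = 1) :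
    lft a b ha hb gU = b := by
  unfold lft gU
  rw [Monoid.CoprodI.lift_of]
  exact cyc_one 3 b hb

/-- the ping-pong sets -/
def pp : Fin 2 → Set (ℤ × ℤ × ℤ) :=
  ![{v | 0 < v.1 ∧ 0 < v.2.1 ∧ 0 < v.2.2}, {v | 0 < v.1 ∧ v.2.1 < 0 ∧ 0 < v.2.2}]

lemma perm_S_apply (v : ℤ × ℤ × ℤ) : perm S v = (v.2.2, -v.2.1, v.1) := by
  simp [act, S]

lemma perm_U_apply (v : ℤ × ℤ × ℤ) :
    perm U v = (v.2.2, -v.2.1 - v.2.2, v.1 + 2 * v.2.1 + v.2.2) := by
  have : (U : SL(2, ℤ)) = ⟨!![0, -1; 1, 1], by decide⟩ := by decide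
  rw [this]
  simp only [perm_apply, act]
  refine Prod.ext ?_ (Prod.ext ?_ ?_)
  · simp
  · simp; ring
  · simp

/-- the embedding of the free product in the permutations -/
def jmap : FP →* Equiv.Perm (ℤ × ℤ × ℤ) := lft (perm S) (perm U) perm_S_sq perm_U_cube

lemma zmod2_cases (h : Multiplicative (ZMod 2)) (hh : h ≠ 1) :
    h = Multiplicative.ofAdd (1 : ZMod 2) := by
  revert hh; revert h; decide

lemma zmod3_cases (h : Multiplicative (ZMod 3)) (hh : h ≠ 1) :
    h = Multiplicative.ofAdd (1 : ZMod 3) ∨ h = Multiplicative.ofAdd (1 : ZMod 3) ^ 2 := by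
  revert hh; revert h; decide

lemma jmap_inj : Function.Injective jmap := by
  refine Monoid.CoprodI.lift_injective_of_ping_pong
    (fam (perm S) (perm U) perm_S_sq perm_U_cube) ?_ pp ?_ ?_ ?_
  · right
    refine ⟨1, ?_⟩
    have : Fintype.card (Multiplicative (ZMod 3)) = 3 := by simp
    show 3 ≤ Cardinal.mk (Multiplicative (ZMod 3))
    rw [Cardinal.mk_fintype, this]
    norm_num
  · intro i
    fin_cases i
    · exact ⟨(1, 1, 1), by simp [pp]⟩
    · exact ⟨(1, -1, 1), by simp [pp]⟩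
  · intro i j hij
    show Disjoint (pp i) (pp j)
    rw [Set.disjoint_left]
    rintro ⟨p, q, r⟩ hp hq
    fin_cases i <;> fin_cases j <;> simp [pp] at hij hp hq <;> omega
  · intro i j hij h hh
    rintro _ ⟨⟨p, q, r⟩, hv, rfl⟩
    fin_cases i <;> fin_cases j
    · exact absurd rfl hij
    · have h1 := zmod2_cases h hh
      have h2 : fam (perm S) (perm U) perm_S_sq perm_U_cube 0 h = perm S := by
        rw [h1]; exact cyc_one 2 _ perm_S_sq
      simp only [pp] at hv ⊢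
      show fam (perm S) (perm U) perm_S_sq perm_U_cube 0 h (p, q, r) ∈ _
      rw [h2, perm_S_apply]
      simp at hv ⊢
      omega
    · have h1 := zmod3_cases h hh
      simp only [pp] at hv ⊢
      show fam (perm S) (perm U) perm_S_sq perm_U_cube 1 h (p, q, r) ∈ _
      rcases h1 with h1 | h1
      · have h3 : fam (perm S) (perm U) perm_S_sq perm_U_cube 1 h = perm U := by
          rw [h1]; exact cyc_one 3 _ perm_U_cube
        rw [h3, perm_U_apply]
        simp at hv ⊢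
        omega
      · have h3 : fam (perm S) (perm U) perm_S_sq perm_U_cube 1 h = perm U ^ 2 := by
          rw [h1]
          show cyc 3 _ perm_U_cube (Multiplicative.ofAdd (1 : ZMod 3) ^ 2) = _
          rw [map_pow, cyc_one]
        rw [h3, pow_two, Equiv.Perm.mul_apply, perm_U_apply, perm_U_apply]
        simp at hv ⊢
        omega
    · exact absurd rfl hij

lemma T_eq : (T : SL(2, ℤ)) = -(S * U) := by decide

/-- the image of `perm` is contained in the image of the free product -/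
lemma perm_mem (g : SL(2, ℤ)) : perm g ∈ jmap.range := by
  have hS : perm S ∈ jmap.range := ⟨gS, lft_gS _ _ _ _⟩
  have hU : perm U ∈ jmap.range := ⟨gU, lft_gU _ _ _ _⟩
  have hT : perm T ∈ jmap.range := by
    rw [T_eq, perm_neg, map_mul]
    exact mul_mem hS hU
  have h : (⊤ : Subgroup SL(2, ℤ)) ≤ jmap.range.comap perm := by
    rw [← SpecialLinearGroup.SL2Z_generators, Subgroup.closure_le]
    rintro x (rfl | rfl)
    · exact hS
    · exact hT
  exact h (Subgroup.mem_top g)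

/-- the projection to the free product `PSL(2,ℤ) = ℤ/2 * ℤ/3` -/
noncomputable def toFP : SL(2, ℤ) →* FP :=
  (MonoidHom.ofInjective jmap_inj).symm.toMonoidHom.comp (perm.codRestrict jmap.range perm_mem)

lemma jmap_toFP (g : SL(2, ℤ)) : jmap (toFP g) = perm g := by
  have := (MonoidHom.ofInjective jmap_inj).apply_symm_apply (⟨perm g, perm_mem g⟩ : jmap.range)
  exact congrArg Subtype.val this

lemma toFP_S : toFP S = gS := jmap_inj (by rw [jmap_toFP]; exact (lft_gS _ _ _ _).symm)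
lemma toFP_U : toFP U = gU := jmap_inj (by rw [jmap_toFP]; exact (lft_gU _ _ _ _).symm)
lemma toFP_neg (g : SL(2, ℤ)) : toFP (-g) = toFP g :=
  jmap_inj (by rw [jmap_toFP, jmap_toFP, perm_neg])

/-- the rotation by a third of a turn (multiplication by `ω` on `ℤ[ω]`) -/
def W : SL(2, ℤ) := ⟨!![0, -1; 1, -1], by decide⟩

/-- the half turn -/
def hA : Aff := ⟨-1, 0⟩

/-- a rotation of order three -/
def hB : Aff := ⟨W, ![1, 0]⟩

lemma hA_sq : hA ^ 2 = 1 := by
  rw [pow_two]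
  ext1
  · simp [hA]
  · simp [hA]

lemma hB_cube : hB ^ 3 = 1 := by
  rw [pow_succ, pow_two]
  apply Aff.ext
  · show W * W * W = 1
    decide
  · show (hB * hB * hB).t = 0
    decide

/-- the homomorphism `SL(2,ℤ) → ℤ[ω] ⋊ μ₆` -/
noncomputable def Phi : SL(2, ℤ) →* Aff := (lft hA hB hA_sq hB_cube).comp toFP

lemma Phi_S : Phi S = hA := by
  show lft _ _ _ _ (toFP S) = _
  rw [toFP_S, lft_gS]

lemma Phi_U : Phi U = hB := by
  show lft _ _ _ _ (toFP U) = _
  rw [toFP_U, lft_gU]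

lemma Phi_neg (g : SL(2, ℤ)) : Phi (-g) = Phi g := by
  show lft _ _ _ _ (toFP (-g)) = _
  rw [toFP_neg]; rfl

lemma Phi_T : Phi T = hA * hB := by
  rw [T_eq, Phi_neg, map_mul, Phi_S, Phi_U]

end Pool.Agent.BraidOrbits
end

section

namespace Pool.Agent.BraidOrbits

open Matrix MatrixGroups ModularGroup

/-- the character of order three of `SL(2,ℤ)` -/
def psi (g : SL(2, ℤ)) : ZMod 3 :=
  (g 0 1 : ZMod 3) * (g 1 1 : ZMod 3) * (1 - (g 1 0 : ZMod 3) ^ 2) +
    (g 1 0 : ZMod 3) * ((g 0 0 : ZMod 3) + (g 1 1 : ZMod 3))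

lemma det_cast (g : SL(2, ℤ)) :
    (g 0 0 : ZMod 3) * (g 1 1 : ZMod 3) - (g 0 1 : ZMod 3) * (g 1 0 : ZMod 3) = 1 := by
  have h := g.det_coe
  rw [Matrix.det_fin_two] at h
  have h2 := congrArg (fun n : ℤ => (n : ZMod 3)) h
  simpa using h2

lemma psi_mul_S (g : SL(2, ℤ)) : psi (g * S) = psi g := by
  have h := det_cast g
  have key : ∀ a b c d : ZMod 3, a * d - b * c = 1 →
      -a * -c * (1 - d ^ 2) + d * (b + -c) = b * d * (1 - c ^ 2) + c * (a + d) := by decide
  have := key _ _ _ _ h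
  unfold psi
  rw [← this]
  simp [Matrix.SpecialLinearGroup.coe_mul, Matrix.mul_apply, Fin.sum_univ_two, S]

lemma psi_mul_Sinv (g : SL(2, ℤ)) : psi (g * S⁻¹) = psi g := by
  conv_rhs => rw [show g = g * S⁻¹ * S by group]
  rw [psi_mul_S]

lemma psi_mul_T (g : SL(2, ℤ)) : psi (g * T) = psi g + 1 := by
  have h := det_cast g
  have key : ∀ a b c d : ZMod 3, a * d - b * c = 1 →
      (a + b) * (c + d) * (1 - c ^ 2) + c * (a + (c + d)) =
        b * d * (1 - c ^ 2) + c * (a + d) + 1 := by decide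
  have := key _ _ _ _ h
  unfold psi
  rw [← this]
  simp [Matrix.SpecialLinearGroup.coe_mul, Matrix.mul_apply, Fin.sum_univ_two, T]

lemma psi_mul_Tinv (g : SL(2, ℤ)) : psi (g * T⁻¹) = psi g - 1 := by
  have h := psi_mul_T (g * T⁻¹)
  rw [inv_mul_cancel_right] at h
  rw [h]; ring

lemma W_cube : W ^ 3 = 1 := by decide

lemma neg_pow_W (n : ZMod 3) : (-(W ^ n.val)) * (-W) = W ^ (n + 1).val := by
  revert n; decide

lemma lin_Phi_T : Aff.lin (Phi T) = -W := by
  rw [Phi_T, map_mul]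
  show (-1 : SL(2, ℤ)) * W = -W
  simp

lemma lin_Phi_S : Aff.lin (Phi S) = -1 := by
  rw [Phi_S]; rfl

/-- the linear part of `Phi g` is plus or minus the power `psi g` of the rotation -/
lemma lin_Phi (g : SL(2, ℤ)) :
    Aff.lin (Phi g) = W ^ (psi g).val ∨ Aff.lin (Phi g) = -(W ^ (psi g).val) := by
  have hg : g ∈ Subgroup.closure {S, T} := by
    rw [SpecialLinearGroup.SL2Z_generators]; exact Subgroup.mem_top g
  induction hg using Subgroup.closure_induction_right with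
  | one =>
    left
    rw [map_one, map_one]
    have : (psi 1).val = 0 := by decide
    rw [this, pow_zero]
  | mul_right x hx y hy ih =>
    rcases hy with rfl | rfl
    · rw [psi_mul_S, map_mul, map_mul, lin_Phi_S]
      rcases ih with ih | ih
      · right; rw [ih]; simp
      · left; rw [ih]; simp
    · rw [psi_mul_T, map_mul, map_mul, lin_Phi_T]
      have hc := neg_pow_W (psi x)
      rcases ih with ih | ih
      · right; rw [ih, ← hc]; simp
      · left; rw [ih, ← hc]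
  | mul_inv_cancel x hx y hy ih =>
    rcases hy with rfl | rfl
    · rw [psi_mul_Sinv, map_mul, map_mul, map_inv, map_inv, lin_Phi_S]
      have h1 : (-1 : SL(2, ℤ))⁻¹ = -1 := by decide
      rw [h1]
      rcases ih with ih | ih
      · right; rw [ih]; simp
      · left; rw [ih]; simp
    · rw [psi_mul_Tinv, map_mul, map_mul, map_inv, map_inv, lin_Phi_T]
      have hc := neg_pow_W (psi x - 1)
      rw [sub_add_cancel] at hc
      rcases ih with ih | ih
      · right; rw [ih, ← hc, mul_inv_cancel_right]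
      · left; rw [ih, ← hc, neg_mul, mul_assoc]; simp

lemma psi_eq_zero (g : SL(2, ℤ)) (h : (g 0 1 : ZMod 3) = (g 1 0 : ZMod 3)) : psi g = 0 := by
  have hd := det_cast g
  rw [h] at hd
  unfold psi
  rw [h]
  have key : ∀ a c d : ZMod 3, a * d - c * c = 1 → c * d * (1 - c ^ 2) + c * (a + d) = 0 := by
    decide
  exact key _ _ _ hd

/-- elements congruent to symmetric matrices modulo three have linear part `±1` -/
lemma lin_Phi_sym (g : SL(2, ℤ)) (h : (g 0 1 : ZMod 3) = (g 1 0 : ZMod 3)) :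
    (Phi g).M = 1 ∨ (Phi g).M = -1 := by
  have h1 := lin_Phi g
  rw [psi_eq_zero g h] at h1
  rcases h1 with h1 | h1
  · left; exact h1.trans (by simp)
  · right; exact h1.trans (by simp)

end Pool.Agent.BraidOrbits
end

section

namespace Pool.Agent.BraidOrbits

open Matrix MatrixGroups ModularGroup

lemma chi_eq (x y : K0) : chi x y = 1 * (x (0, 0) * y (0, 0)) + 3 * (x (0, 0) * y (0, 1)) + 6 * (x (0, 0) * y (0, 2)) + 2 * (x (0, 0) * y (1, 0)) + 6 * (x (0, 0) * y (1, 1)) + 12 * (x (0, 0) * y (1, 2)) + 1 * (x (0, 1) * y (0, 1)) + 3 * (x (0, 1) * y (0, 2)) + 2 * (x (0, 1) * y (1, 1)) + 6 * (x (0, 1) * y (1, 2)) + 1 * (x (0, 2) * y (0, 2)) + 2 * (x (0, 2) * y (1, 2)) + 1 * (x (1, 0) * y (1, 0)) + 3 * (x (1, 0) * y (1, 1)) + 6 * (x (1, 0) * y (1, 2)) + 1 * (x (1, 1) * y (1, 1)) + 3 * (x (1, 1) * y (1, 2)) + 1 * (x (1, 2) * y (1, 2)) := by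
  simp only [chi, chiLine, Fintype.sum_prod_type, Fin.sum_univ_two, Fin.sum_univ_three]
  simp only [Fin.isValue, Fin.val_zero, Fin.val_one, Fin.val_two, Nat.cast_zero, Nat.cast_one,
    Nat.cast_ofNat]
  norm_num
  ring

/-- the image of a class in the two by two matrices; `O(a,b)` goes to `L^(3a+b) R^b` -/
def nu (x : K0) : Matrix (Fin 2) (Fin 2) ℤ :=
  !![x (0,0) + x (0,1) + x (0,2) + x (1,0) + x (1,1) + x (1,2),
      x (0,1) + 2 * x (0,2) + x (1,1) + 2 * x (1,2);
     x (0,1) + 2 * x (0,2) + 3 * x (1,0) + 4 * x (1,1) + 5 * x (1,2),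
      x (0,0) + 2 * x (0,1) + 5 * x (0,2) + x (1,0) + 5 * x (1,1) + 11 * x (1,2)]

/-- the polar form of the determinant -/
def pol (A B : Matrix (Fin 2) (Fin 2) ℤ) : ℤ := A 0 0 * B 1 1 + A 1 1 * B 0 0 - A 0 1 * B 1 0 - A 1 0 * B 0 1

lemma chi_symm (x y : K0) : chi x y + chi y x = pol (nu x) (nu y) := by
  rw [chi_eq, chi_eq]
  simp only [pol, nu, Matrix.of_apply, Matrix.cons_val', Matrix.cons_val_zero, Matrix.cons_val_one,
    Matrix.cons_val_fin_one]
  ring

lemma chi_self (x : K0) : chi x x = (nu x).det := by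
  have h := chi_symm x x
  have h2 : pol (nu x) (nu x) = 2 * (nu x).det := by
    rw [Matrix.det_fin_two]; unfold pol; ring
  omega

lemma nu_add (x y : K0) : nu (x + y) = nu x + nu y := by
  ext i j
  fin_cases i <;> fin_cases j <;> simp [nu] <;> ring

lemma nu_neg (x : K0) : nu (-x) = -nu x := by
  ext i j
  fin_cases i <;> fin_cases j <;> simp [nu] <;> ring

lemma nu_sub (x y : K0) : nu (x - y) = nu x - nu y := by
  rw [sub_eq_add_neg, nu_add, nu_neg, ← sub_eq_add_neg]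

lemma nu_smul (c : ℤ) (x : K0) : nu (c • x) = c • nu x := by
  ext i j
  fin_cases i <;> fin_cases j <;> simp [nu] <;> ring

lemma nu_mod (x : K0) : ((nu x 0 1 : ℤ) : ZMod 3) = ((nu x 1 0 : ℤ) : ZMod 3) := by
  rw [ZMod.intCast_eq_intCast_iff, Int.modEq_iff_dvd]
  refine ⟨x (1,0) + x (1,1) + x (1,2), ?_⟩
  simp only [nu, Matrix.of_apply, Matrix.cons_val', Matrix.cons_val_zero, Matrix.cons_val_one,
    Matrix.cons_val_fin_one]
  ring

/-- the element of `SL(2,ℤ)` attached to a class with `chi x x = 1` -/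
def nuSL (x : K0) : SL(2, ℤ) := if h : (nu x).det = 1 then ⟨nu x, h⟩ else 1

lemma nuSL_coe {x : K0} (h : chi x x = 1) : (nuSL x : Matrix (Fin 2) (Fin 2) ℤ) = nu x := by
  rw [chi_self] at h
  unfold nuSL
  rw [dif_pos h]

lemma nuSL_neg {x : K0} (h : chi x x = 1) : nuSL (-x) = -nuSL x := by
  have h' : chi (-x) (-x) = 1 := by
    rw [chi_self, nu_neg, Matrix.det_neg]; rw [chi_self] at h; simp [h]
  apply Subtype.ext
  show (nuSL (-x) : Matrix (Fin 2) (Fin 2) ℤ) = ((-nuSL x : SL(2, ℤ)) : Matrix (Fin 2) (Fin 2) ℤ)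
  rw [nuSL_coe h', nu_neg, Matrix.SpecialLinearGroup.coe_neg, nuSL_coe h]

lemma nuSL_mutate {x y : K0} (hx : chi x x = 1) (hy : chi y y = 1) (hyx : chi y x = 0)
    (hz : chi (chi x y • x - y) (chi x y • x - y) = 1) :
    nuSL (chi x y • x - y) = nuSL x * (nuSL y)⁻¹ * nuSL x := by
  apply Subtype.ext
  show (nuSL _ : Matrix (Fin 2) (Fin 2) ℤ) = _
  rw [nuSL_coe hz, nu_sub, nu_smul]
  have hp : chi x y = pol (nu x) (nu y) := by rw [← chi_symm, hyx, add_zero]
  have hdx : (nu x).det = 1 := by rw [← chi_self]; exact hx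
  have hcoe : ((nuSL x * (nuSL y)⁻¹ * nuSL x : SL(2, ℤ)) : Matrix (Fin 2) (Fin 2) ℤ) =
      nu x * (nu y).adjugate * nu x := by
    rw [Matrix.SpecialLinearGroup.coe_mul, Matrix.SpecialLinearGroup.coe_mul,
      Matrix.SpecialLinearGroup.coe_inv, nuSL_coe hx, nuSL_coe hy]
  show _ = ((nuSL x * (nuSL y)⁻¹ * nuSL x : SL(2, ℤ)) : Matrix (Fin 2) (Fin 2) ℤ)
  rw [hcoe, hp]
  rw [Matrix.det_fin_two] at hdx
  set X := nu x
  set Y := nu y
  rw [Matrix.adjugate_fin_two]
  ext i j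
  rw [Matrix.sub_apply, Matrix.smul_apply, smul_eq_mul, Matrix.mul_apply, Fin.sum_univ_two,
    Matrix.mul_apply, Matrix.mul_apply, Fin.sum_univ_two, Fin.sum_univ_two]
  unfold pol
  fin_cases i <;> fin_cases j <;>
    simp only [Fin.zero_eta, Fin.mk_one, Fin.isValue, Matrix.of_apply, Matrix.cons_val',
      Matrix.cons_val_zero, Matrix.cons_val_one, Matrix.cons_val_fin_one]
  · linear_combination (Y 0 0) * hdx
  · linear_combination (Y 0 1) * hdx
  · linear_combination (Y 1 0) * hdx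
  · linear_combination (Y 1 1) * hdx

end Pool.Agent.BraidOrbits
end

section

namespace Pool.Agent.BraidOrbits

open Matrix MatrixGroups ModularGroup

/-- oriented area -/
def wedge (u v : Fin 2 → ℤ) : ℤ := u 0 * v 1 - u 1 * v 0

/-- states: number of elements met, alternating sum, area -/
abbrev St : Type := ℕ × (Fin 2 → ℤ) × ℤ

/-- processing one element of the tuple, looking only at the elements with linear part `P` -/
def stp (P : SL(2, ℤ)) (s : St) (g : Aff) : St :=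
  if g.M = P then (s.1 + 1, g.t - s.2.1, s.2.2 + wedge s.2.1 g.t) else s

/-- the final state -/
def fin (P : SL(2, ℤ)) (w : Fin 6 → Aff) : St :=
  stp P (stp P (stp P (stp P (stp P (stp P (0, 0, 0) (w 0)) (w 1)) (w 2)) (w 3)) (w 4)) (w 5)

/-- linear part `±1` -/
def Ok (g : Aff) : Prop := g.M = 1 ∨ g.M = -1

lemma neg_one_ne : (-1 : SL(2, ℤ)) ≠ 1 := by decide

lemma neg_one_inv : (-1 : SL(2, ℤ))⁻¹ = -1 := by decide

lemma one_mv (v : Fin 2 → ℤ) : ((1 : SL(2, ℤ)) : Matrix (Fin 2) (Fin 2) ℤ).mulVec v = v := by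
  rw [Matrix.SpecialLinearGroup.coe_one, Matrix.one_mulVec]

lemma neg_one_mv (v : Fin 2 → ℤ) : ((-1 : SL(2, ℤ)) : Matrix (Fin 2) (Fin 2) ℤ).mulVec v = -v := by
  rw [Matrix.SpecialLinearGroup.coe_neg, Matrix.SpecialLinearGroup.coe_one, Matrix.neg_mulVec,
    Matrix.one_mulVec]

lemma hur_M {x y : Aff} (hx : Ok x) (hy : Ok y) : (x * y⁻¹ * x).M = y.M := by
  rcases hx with hx | hx <;> rcases hy with hy | hy <;> simp [hx, hy, neg_one_inv]

lemma hur_t {x y : Aff} (hx : Ok x) (hy : Ok y) :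
    (x * y⁻¹ * x).t = if x.M = y.M then x.t + x.t - y.t else y.t := by
  rcases hx with hx | hx <;> rcases hy with hy | hy <;>
    simp only [Aff.mul_t, Aff.mul_M, Aff.inv_M, Aff.inv_t, hx, hy, neg_one_inv, inv_one, one_mv,
      neg_one_mv, one_mul, mul_one, neg_one_ne, neg_one_ne.symm, if_true, if_false, neg_mul,
      neg_neg] <;> abel

lemma stp_swap (P : SL(2, ℤ)) (s : St) {x y : Aff} (hx : Ok x) (hy : Ok y) :
    stp P (stp P s (x * y⁻¹ * x)) x = stp P (stp P s x) y := by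
  unfold stp
  rw [hur_M hx hy, hur_t hx hy]
  by_cases h1 : x.M = P <;> by_cases h2 : y.M = P
  · rw [if_pos h1, if_pos h2, if_pos h2, if_pos h1, if_pos (h1.trans h2.symm)]
    refine Prod.ext rfl (Prod.ext ?_ ?_)
    · show x.t - (x.t + x.t - y.t - s.2.1) = y.t - (x.t - s.2.1)
      abel
    · simp only [wedge, Pi.add_apply, Pi.sub_apply]
      ring
  · rw [if_pos h1, if_neg h2, if_neg h2, if_pos h1]
  · have h3 : ¬ x.M = y.M := fun h => h1 (h.trans h2)
    rw [if_neg h1, if_pos h2, if_pos h2, if_neg h1, if_neg h3]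
  · rw [if_neg h1, if_neg h2, if_neg h2, if_neg h1]

/-- a mutation of a tuple of affine maps -/
def hurw (i : Fin 5) (w : Fin 6 → Aff) : Fin 6 → Aff := fun j =>
  if j = i.castSucc then w i.castSucc * (w i.succ)⁻¹ * w i.castSucc
  else if j = i.succ then w i.castSucc else w j

lemma fin_hurw (P : SL(2, ℤ)) (i : Fin 5) (w : Fin 6 → Aff) (hw : ∀ j, Ok (w j)) :
    fin P (hurw i w) = fin P w := by
  fin_cases i
  · show stp P (stp P (stp P (stp P (stp P (stp P (0, 0, 0) (w 0 * (w 1)⁻¹ * w 0)) (w 0)) (w 2)) (w 3)) (w 4)) (w 5) = _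
    rw [stp_swap P _ (hw 0) (hw 1)]; rfl
  · show stp P (stp P (stp P (stp P (stp P (stp P (0, 0, 0) (w 0)) (w 1 * (w 2)⁻¹ * w 1)) (w 1)) (w 3)) (w 4)) (w 5) = _
    rw [stp_swap P _ (hw 1) (hw 2)]; rfl
  · show stp P (stp P (stp P (stp P (stp P (stp P (0, 0, 0) (w 0)) (w 1)) (w 2 * (w 3)⁻¹ * w 2)) (w 2)) (w 4)) (w 5) = _
    rw [stp_swap P _ (hw 2) (hw 3)]; rfl
  · show stp P (stp P (stp P (stp P (stp P (stp P (0, 0, 0) (w 0)) (w 1)) (w 2)) (w 3 * (w 4)⁻¹ * w 3)) (w 3)) (w 5) = _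
    rw [stp_swap P _ (hw 3) (hw 4)]; rfl
  · show stp P (stp P (stp P (stp P (stp P (stp P (0, 0, 0) (w 0)) (w 1)) (w 2)) (w 3)) (w 4 * (w 5)⁻¹ * w 4)) (w 4) = _
    rw [stp_swap P _ (hw 4) (hw 5)]; rfl

/-- the invariant of a tuple: the product of the two areas if both kinds occur three times -/
def inv (w : Fin 6 → Aff) : ℤ :=
  if (fin 1 w).1 = 3 ∧ (fin (-1) w).1 = 3 then (fin 1 w).2.2 * (fin (-1) w).2.2 else 0

lemma inv_hurw (i : Fin 5) (w : Fin 6 → Aff) (hw : ∀ j, Ok (w j)) : inv (hurw i w) = inv w := by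
  unfold inv
  rw [fin_hurw 1 i w hw, fin_hurw (-1) i w hw]

/-- relation between the states of a tuple and of its image under `w ↦ a w b` -/
def RelSt (A : SL(2, ℤ)) (c : Fin 2 → ℤ) (s s' : St) : Prop :=
  s'.1 = s.1 ∧
  (Even s.1 → s'.2.1 = (A : Matrix (Fin 2) (Fin 2) ℤ).mulVec s.2.1 ∧
    s'.2.2 = s.2.2 - wedge ((A : Matrix (Fin 2) (Fin 2) ℤ).mulVec s.2.1) c) ∧
  (¬ Even s.1 → s'.2.1 = (A : Matrix (Fin 2) (Fin 2) ℤ).mulVec s.2.1 + c ∧ s'.2.2 = s.2.2)

lemma wedge_mv (A : SL(2, ℤ)) (u v : Fin 2 → ℤ) :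
    wedge ((A : Matrix (Fin 2) (Fin 2) ℤ).mulVec u) ((A : Matrix (Fin 2) (Fin 2) ℤ).mulVec v) =
      wedge u v := by
  have h := A.det_coe
  rw [Matrix.det_fin_two] at h
  simp only [wedge, Matrix.mulVec, dotProduct, Fin.sum_univ_two]
  linear_combination (u 0 * v 1 - u 1 * v 0) * h

lemma wedge_add_right (u v w : Fin 2 → ℤ) : wedge u (v + w) = wedge u v + wedge u w := by
  simp [wedge]; ring
lemma wedge_add_left (u v w : Fin 2 → ℤ) : wedge (u + v) w = wedge u w + wedge v w := by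
  simp [wedge]; ring
lemma wedge_sub_left (u v w : Fin 2 → ℤ) : wedge (u - v) w = wedge u w - wedge v w := by
  simp [wedge]; ring
lemma wedge_self (u : Fin 2 → ℤ) : wedge u u = 0 := by simp [wedge]; ring
lemma wedge_comm (u v : Fin 2 → ℤ) : wedge u v = - wedge v u := by simp [wedge]; ring

lemma relSt_zero (A : SL(2, ℤ)) (c : Fin 2 → ℤ) : RelSt A c (0, 0, 0) (0, 0, 0) := by
  refine ⟨rfl, fun _ => ?_, fun h => absurd (by simp) h⟩
  simp [wedge]

lemma relSt_stp {A : SL(2, ℤ)} {c : Fin 2 → ℤ} {s s' : St} (h : RelSt A c s s')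
    {P P' : SL(2, ℤ)} {g g' : Aff} (hiff : g'.M = P' ↔ g.M = P)
    (ht : g.M = P → g'.t = (A : Matrix (Fin 2) (Fin 2) ℤ).mulVec g.t + c) :
    RelSt A c (stp P s g) (stp P' s' g') := by
  obtain ⟨h1, h2, h3⟩ := h
  unfold stp
  by_cases hg : g.M = P
  · rw [if_pos hg, if_pos (hiff.mpr hg)]
    have ht' := ht hg
    refine ⟨?_, ?_, ?_⟩
    · show s'.1 + 1 = s.1 + 1
      rw [h1]
    · intro he
      have ho : ¬ Even s.1 := by
        intro h; exact absurd he (by simp only; rw [Nat.even_add_one]; simpa using h)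
      obtain ⟨h4, h5⟩ := h3 ho
      constructor
      · show g'.t - s'.2.1 = Matrix.mulVec _ (g.t - s.2.1)
        rw [ht', h4, Matrix.mulVec_sub]; abel
      · show s'.2.2 + wedge s'.2.1 g'.t = s.2.2 + wedge s.2.1 g.t -
          wedge (Matrix.mulVec _ (g.t - s.2.1)) c
        rw [ht', h4, h5, Matrix.mulVec_sub, wedge_add_right, wedge_add_left, wedge_add_left,
          wedge_mv, wedge_self, wedge_sub_left, wedge_comm c]
        ring
    · intro he
      have ho : Even s.1 := by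
        by_contra h; exact he (by simp only; rw [Nat.even_add_one]; exact h)
      obtain ⟨h4, h5⟩ := h2 ho
      constructor
      · show g'.t - s'.2.1 = Matrix.mulVec _ (g.t - s.2.1) + c
        rw [ht', h4, Matrix.mulVec_sub]; abel
      · show s'.2.2 + wedge s'.2.1 g'.t = s.2.2 + wedge s.2.1 g.t
        rw [ht', h4, h5, wedge_add_right, wedge_mv]
        ring
  · rw [if_neg hg, if_neg (fun h => hg (hiff.mp h))]
    exact ⟨h1, h2, h3⟩

lemma relSt_fin {A : SL(2, ℤ)} {c : Fin 2 → ℤ} {P P' : SL(2, ℤ)} {w w' : Fin 6 → Aff}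
    (hiff : ∀ i, (w' i).M = P' ↔ (w i).M = P)
    (ht : ∀ i, (w i).M = P → (w' i).t = (A : Matrix (Fin 2) (Fin 2) ℤ).mulVec (w i).t + c) :
    RelSt A c (fin P w) (fin P' w') := by
  unfold fin
  exact relSt_stp (relSt_stp (relSt_stp (relSt_stp (relSt_stp (relSt_stp (relSt_zero A c)
    (hiff 0) (ht 0)) (hiff 1) (ht 1)) (hiff 2) (ht 2)) (hiff 3) (ht 3)) (hiff 4) (ht 4))
    (hiff 5) (ht 5)

/-- the invariant does not change under `w ↦ a w b` if this keeps the linear parts `±1` -/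
lemma inv_mul (a b : Aff) (hab : a.M * b.M = 1 ∨ a.M * b.M = -1) (w : Fin 6 → Aff)
    (hw : ∀ j, Ok (w j)) : inv (fun i => a * w i * b) = inv w := by
  have hMw : ∀ i, (a * w i * b).M = (w i).M * (a.M * b.M) := by
    intro i
    show a.M * (w i).M * b.M = _
    rcases hw i with h | h <;> rw [h] <;> simp
  have htw : ∀ i, (a * w i * b).t = (a.M : Matrix (Fin 2) (Fin 2) ℤ).mulVec (w i).t +
      (((a.M * (w i).M : SL(2, ℤ)) : Matrix (Fin 2) (Fin 2) ℤ).mulVec b.t + a.t) := by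
    intro i
    simp only [Aff.mul_t, Aff.mul_M]
    abel
  have hrel : ∀ P P' : SL(2, ℤ), P * (a.M * b.M) = P' → RelSt a.M
      (((a.M * P : SL(2, ℤ)) : Matrix (Fin 2) (Fin 2) ℤ).mulVec b.t + a.t)
      (fin P w) (fin P' (fun i => a * w i * b)) := by
    intro P P' hP
    apply relSt_fin
    · intro i
      rw [hMw, ← hP]
      exact mul_left_inj _
    · intro i hi
      rw [htw, hi]
  have hodd : ¬ Even 3 := by decide
  rcases hab with hab | hab
  · have h1 := hrel 1 1 (by rw [hab, mul_one])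
    have h2 := hrel (-1) (-1) (by rw [hab, mul_one])
    unfold inv
    rw [h1.1, h2.1]
    by_cases hc : (fin 1 w).1 = 3 ∧ (fin (-1) w).1 = 3
    · rw [if_pos hc, if_pos hc, (h1.2.2 (by rw [hc.1]; exact hodd)).2,
        (h2.2.2 (by rw [hc.2]; exact hodd)).2]
    · rw [if_neg hc, if_neg hc]
  · have h1 := hrel 1 (-1) (by rw [hab, one_mul])
    have h2 := hrel (-1) 1 (by rw [hab, neg_mul_neg, one_mul])
    unfold inv
    rw [h1.1, h2.1]
    by_cases hc : (fin 1 w).1 = 3 ∧ (fin (-1) w).1 = 3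
    · rw [if_pos hc, if_pos hc.symm, (h1.2.2 (by rw [hc.1]; exact hodd)).2,
        (h2.2.2 (by rw [hc.2]; exact hodd)).2, mul_comm]
    · rw [if_neg hc, if_neg (fun h => hc h.symm)]

end Pool.Agent.BraidOrbits
end
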