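import Pool.Agent.BraidOrbits.Mg_MP_bd3808_ag.G001

section

namespace Pool.Agent.BraidOrbits

open Matrix MatrixGroups ModularGroup

/-- the twist by the anticanonical bundle `O(2,3)` on classes -/
def tau (x : K0) : K0 := fun p =>
  ![![-1 * x (0, 0) + -3 * x (0, 1) + -6 * x (0, 2) + -2 * x (1, 0) + -6 * x (1, 1) + -12 * x (1, 2),
      3 * x (0, 0) + 8 * x (0, 1) + 15 * x (0, 2) + 6 * x (1, 0) + 16 * x (1, 1) + 30 * x (1, 2),
      -3 * x (0, 0) + -6 * x (0, 1) + -10 * x (0, 2) + -6 * x (1, 0) + -12 * x (1, 1) + -20 * x (1, 2)],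
    ![2 * x (0, 0) + 6 * x (0, 1) + 12 * x (0, 2) + 3 * x (1, 0) + 9 * x (1, 1) + 18 * x (1, 2),
      -6 * x (0, 0) + -16 * x (0, 1) + -30 * x (0, 2) + -9 * x (1, 0) + -24 * x (1, 1) + -45 * x (1, 2),
      6 * x (0, 0) + 12 * x (0, 1) + 20 * x (0, 2) + 9 * x (1, 0) + 18 * x (1, 1) + 30 * x (1, 2)]] p.1 p.2

lemma chi_tau (x y : K0) : chi (tau x) y = - chi y x := by
  rw [chi_eq, chi_eq]
  simp only [tau, Fin.isValue, Matrix.cons_val_zero, Matrix.cons_val_one, Matrix.cons_val]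
  ring

/-- left translation matrix `L^9` -/
def L9 : Matrix (Fin 2) (Fin 2) ℤ := !![1, 0; 9, 1]
/-- right translation matrix `R^3` -/
def R3 : Matrix (Fin 2) (Fin 2) ℤ := !![1, 3; 0, 1]

lemma nu_tau (x : K0) : nu (tau x) = L9 * nu x * R3 := by
  ext i j
  fin_cases i <;> fin_cases j <;>
    simp [nu, tau, L9, R3, Matrix.mul_apply, Fin.sum_univ_two] <;> ring

lemma chi_sub_left (x y z : K0) : chi (x - y) z = chi x z - chi y z := by
  rw [chi_eq, chi_eq, chi_eq]; simp only [Pi.sub_apply]; ring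

lemma chi_nondeg {x : K0} (h : ∀ y, chi x y = 0) : x = 0 := by
  have e := fun p : Fin 2 × Fin 3 => h (Pi.single p 1)
  have e1 := e (0, 0)
  have e2 := e (0, 1)
  have e3 := e (0, 2)
  have e4 := e (1, 0)
  have e5 := e (1, 1)
  have e6 := e (1, 2)
  rw [chi_eq] at e1 e2 e3 e4 e5 e6
  simp [Pi.single_apply] at e1 e2 e3 e4 e5 e6
  ext ⟨a, b⟩
  fin_cases a <;> fin_cases b <;> simp <;> omega

lemma chi_ext {x y : K0} (h : ∀ z, chi x z = chi y z) : x = y := by
  have : x - y = 0 := chi_nondeg (fun z => by rw [chi_sub_left, h z, sub_self])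
  exact sub_eq_zero.mp this

lemma isom_tau {f : K0 ≃+ K0} (hf : IsIsometry f) (x : K0) : f (tau x) = tau (f x) := by
  apply chi_ext
  intro z
  obtain ⟨y, rfl⟩ := f.surjective z
  rw [hf, chi_tau, chi_tau, hf]

lemma pol_isom {f : K0 ≃+ K0} (hf : IsIsometry f) (x y : K0) :
    pol (nu (f x)) (nu (f y)) = pol (nu x) (nu y) := by
  rw [← chi_symm, ← chi_symm, hf, hf]

/-- the class of the structure sheaf -/
def e1 : K0 := Pi.single (0, 0) 1
/-- a class going to the matrix unit `e_22` -/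
def ep : K0 := fun p => ![![0, -1, 1], ![2, -3, 1]] p.1 p.2
/-- a class going to `e_12 + e_21` -/
def es : K0 := fun p => ![![0, 0, 0], ![-3, 5, -2]] p.1 p.2
/-- a class going to `L^3` -/
def e3 : K0 := Pi.single (1, 0) 1

lemma nu_e1 : nu e1 = !![1, 0; 0, 1] := by
  ext i j; fin_cases i <;> fin_cases j <;> simp [nu, e1, Pi.single_apply]
lemma nu_ep : nu ep = !![0, 0; 0, 1] := by
  ext i j; fin_cases i <;> fin_cases j <;> simp [nu, ep]
lemma nu_es : nu es = !![0, 1; 1, 0] := by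
  ext i j; fin_cases i <;> fin_cases j <;> simp [nu, es]
lemma nu_e3 : nu e3 = !![1, 0; 3, 1] := by
  ext i j; fin_cases i <;> fin_cases j <;> simp [nu, e3, Pi.single_apply]

/-- the kernel of `nu` is preserved -/
lemma isom_ker {f : K0 ≃+ K0} (hf : IsIsometry f) {z : K0} (hz : nu z = 0) : nu (f z) = 0 := by
  have h : ∀ y, pol (nu (f z)) (nu y) = 0 := by
    intro y
    obtain ⟨y, rfl⟩ := f.surjective y
    rw [pol_isom hf, hz]
    simp [pol]
  have h1 := h e1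
  have h2 := h ep
  have h3 := h es
  have h4 := h e3
  rw [nu_e1] at h1
  rw [nu_ep] at h2
  rw [nu_es] at h3
  rw [nu_e3] at h4
  simp [pol] at h1 h2 h3 h4
  ext i j
  fin_cases i <;> fin_cases j <;> simp <;> omega

lemma nu_zero_comb : nu (tau (tau e1) - tau e1 - tau e1 + e1 - (54 : ℤ) • ep) = 0 := by
  rw [nu_sub, nu_add, nu_sub, nu_sub, nu_smul, nu_tau, nu_tau, nu_e1, nu_ep]
  ext i j
  fin_cases i <;> fin_cases j <;> simp [L9, R3, Matrix.mul_apply, Fin.sum_univ_two]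

/-- every isometry is plus or minus the twist by a line bundle, after `nu` -/
theorem isom_form {f : K0 ≃+ K0} (hf : IsIsometry f) :
    ∃ s t ε : ℤ, (ε = 1 ∨ ε = -1) ∧
      ∀ x, nu (f x) = ε • (!![1, 0; s, 1] * nu x * !![1, t; 0, 1]) := by
  have hk := isom_ker hf nu_zero_comb
  rw [map_sub, map_add, map_sub, map_sub, map_zsmul, isom_tau hf, isom_tau hf, nu_sub, nu_add,
    nu_sub, nu_sub, nu_smul, nu_tau, nu_tau] at hk
  have h11 := pol_isom hf e1 e1
  have h12 := pol_isom hf e1 ep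
  have hst : nu (f (tau e1)) = L9 * nu (f e1) * R3 := by rw [isom_tau hf, nu_tau]
  have hs1 := pol_isom hf es e1
  have hsp := pol_isom hf es ep
  have hst1 := pol_isom hf es (tau e1)
  have hss := pol_isom hf es es
  rw [nu_e1] at h11
  rw [nu_e1, nu_ep] at h12
  rw [nu_es, nu_e1] at hs1
  rw [nu_es, nu_ep] at hsp
  rw [nu_es, hst, nu_tau, nu_e1] at hst1
  rw [nu_es] at hss
  set X := nu (f e1) with hX
  set P := nu (f ep) with hP
  set Y := nu (f es) with hY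
  have k00 := congrFun (congrFun hk 0) 0
  have k01 := congrFun (congrFun hk 0) 1
  have k10 := congrFun (congrFun hk 1) 0
  have k11 := congrFun (congrFun hk 1) 1
  simp only [L9, R3, Matrix.add_apply, Matrix.sub_apply, Matrix.smul_apply, Matrix.mul_apply,
    Fin.sum_univ_two, Matrix.of_apply, Matrix.cons_val', Matrix.cons_val_zero, Matrix.cons_val_one,
    Matrix.cons_val_fin_one, Matrix.zero_apply, smul_eq_mul, Fin.isValue] at k00 k01 k10 k11
  have p00 : P 0 0 = 0 := by linarith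
  have p01 : P 0 1 = 0 := by linarith
  have p10 : P 1 0 = 0 := by linarith
  have p11 : P 1 1 = X 0 0 := by linarith
  simp only [pol, L9, R3, Matrix.mul_apply, Fin.sum_univ_two, Matrix.of_apply, Matrix.cons_val',
    Matrix.cons_val_zero, Matrix.cons_val_one, Matrix.cons_val_fin_one,
    Fin.isValue, p00, p01, p10, p11] at h11 h12 hs1 hsp hst1 hss
  obtain ⟨a, ha⟩ : ∃ a, X 0 0 = a := ⟨_, rfl⟩
  obtain ⟨b, hb⟩ : ∃ b, X 0 1 = b := ⟨_, rfl⟩
  obtain ⟨c, hc⟩ : ∃ c, X 1 0 = c := ⟨_, rfl⟩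
  obtain ⟨d, hd⟩ : ∃ d, X 1 1 = d := ⟨_, rfl⟩
  obtain ⟨y1, hy1⟩ : ∃ y, Y 0 0 = y := ⟨_, rfl⟩
  obtain ⟨y2, hy2⟩ : ∃ y, Y 0 1 = y := ⟨_, rfl⟩
  obtain ⟨y3, hy3⟩ : ∃ y, Y 1 0 = y := ⟨_, rfl⟩
  obtain ⟨y4, hy4⟩ : ∃ y, Y 1 1 = y := ⟨_, rfl⟩
  rw [ha] at p11
  rw [ha, hb, hc, hd] at h11
  rw [ha] at h12
  rw [ha, hb, hc, hd, hy1, hy2, hy3, hy4] at hs1 hst1
  rw [ha, hy1] at hsp
  rw [hy1, hy2, hy3, hy4] at hss
  have haa : a = 1 ∨ a = -1 := by
    have : a * a = 1 := by linarith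
    exact Int.eq_one_or_neg_one_of_mul_eq_one this
  have hy1' : y1 = 0 := by
    rcases haa with rfl | rfl <;> linarith
  have hdet : a * d - b * c = 1 := by linarith
  have hyy : y2 * y3 = 1 := by rw [hy1'] at hss; linarith
  have hy23 : y2 = a ∧ y3 = a := by
    rw [hy1'] at hs1 hst1
    have h3 : 3 * (a * y2) + a * y3 = 4 := by linarith
    rcases Int.eq_one_or_neg_one_of_mul_eq_one hyy with h | h
    · rw [h] at hyy h3 ⊢
      have : y3 = 1 := by linarith
      rw [this] at h3 ⊢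
      constructor <;> linarith
    · rw [h] at hyy h3 ⊢
      have : y3 = -1 := by linarith
      rw [this] at h3 ⊢
      constructor <;> linarith
  obtain ⟨hy2e, hy3e⟩ := hy23
  have hy4' : y4 = b + c := by
    rw [hy1', hy2e, hy3e] at hs1
    rcases haa with h | h <;> rw [h] at hs1 <;> linarith
  refine ⟨a * c, a * b, a, haa, fun x => ?_⟩
  have g1 := pol_isom hf x e1
  have gp := pol_isom hf x ep
  have gt := pol_isom hf x (tau e1)
  have gs := pol_isom hf x es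
  rw [nu_e1, ← hX] at g1
  rw [nu_ep, ← hP] at gp
  rw [hst, nu_tau, nu_e1] at gt
  rw [nu_es, ← hY] at gs
  set Fx := nu (f x)
  obtain ⟨α, hα⟩ : ∃ y, Fx 0 0 = y := ⟨_, rfl⟩
  obtain ⟨β, hβ⟩ : ∃ y, Fx 0 1 = y := ⟨_, rfl⟩
  obtain ⟨γ, hγ⟩ : ∃ y, Fx 1 0 = y := ⟨_, rfl⟩
  obtain ⟨δ, hδ⟩ : ∃ y, Fx 1 1 = y := ⟨_, rfl⟩
  set N := nu x
  obtain ⟨p, hp⟩ : ∃ y, N 0 0 = y := ⟨_, rfl⟩
  obtain ⟨q, hq⟩ : ∃ y, N 0 1 = y := ⟨_, rfl⟩
  obtain ⟨r, hr⟩ : ∃ y, N 1 0 = y := ⟨_, rfl⟩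
  obtain ⟨u, hu⟩ : ∃ y, N 1 1 = y := ⟨_, rfl⟩
  simp only [pol, L9, R3, Matrix.mul_apply, Fin.sum_univ_two, Matrix.of_apply, Matrix.cons_val',
    Matrix.cons_val_zero, Matrix.cons_val_one, Matrix.cons_val_fin_one,
    Fin.isValue, p00, p01, p10, p11, ha, hb, hc, hd, hy1, hy2, hy3, hy4, hy1', hy2e, hy3e, hy4',
    hα, hβ, hγ, hδ, hp, hq, hr, hu] at g1 gp gt gs
  have hαe : α = a * p := by
    rcases haa with h | h <;> rw [h] at gp ⊢ <;> linarith
  have hβe : β = a * q + b * p := by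
    rcases haa with h | h <;> rw [h] at hαe gt g1 gs ⊢ <;> rw [hαe] at gt g1 gs <;> linarith
  have hγe : γ = a * r + c * p := by
    rcases haa with h | h <;> rw [h] at hαe gt g1 gs hβe ⊢ <;> rw [hαe] at gt g1 gs <;>
      rw [hβe] at gt g1 gs <;> linarith
  have hδe : δ = a * b * c * p + b * r + c * q + a * u := by
    rw [hαe, hβe, hγe] at g1
    rcases haa with h | h <;> rw [h] at g1 hdet ⊢
    · linear_combination g1 - p * hdet
    · linear_combination -g1 + p * hdet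
  have haq : a * a = 1 := by rcases haa with h | h <;> rw [h] <;> norm_num
  ext i j
  rw [Matrix.smul_apply, smul_eq_mul]
  simp only [Matrix.mul_apply, Fin.sum_univ_two]
  fin_cases i <;> fin_cases j <;>
    simp only [Fin.zero_eta, Fin.mk_one, Fin.isValue, Matrix.of_apply, Matrix.cons_val',
      Matrix.cons_val_zero, Matrix.cons_val_one, Matrix.cons_val_fin_one, hα, hβ, hγ, hδ, hp, hq,
      hr, hu]
  · rw [hαe]; ring
  · rw [hβe]; linear_combination -(b * p) * haq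
  · rw [hγe]; linear_combination -(c * p) * haq
  · rw [hδe]; linear_combination -(a * b * c * p + b * r + c * q) * haq

end Pool.Agent.BraidOrbits
end

section

namespace Pool.Agent.BraidOrbits

open Matrix MatrixGroups ModularGroup

/-- the function underlying `G` -/
def Gfun (x : K0) : K0 := fun p =>
  ![![x (0, 0),
      6 * x (1, 0) + 3 * x (0, 1) + 4 * x (1, 1) - 3 * x (0, 2),
      -6 * x (1, 0) + 3 * x (0, 1) - 6 * x (1, 1) + 8 * x (0, 2)],
    ![-1 * x (1, 0) + 6 * x (0, 1) - 3 * x (1, 1) + 6 * x (0, 2),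
      3 * x (1, 0) - 4 * x (0, 1) + 4 * x (1, 1) - 6 * x (0, 2),
      x (1, 2)]] p.1 p.2

/-- the function underlying the inverse of `G` -/
def Hfun (x : K0) : K0 := fun p =>
  ![![x (0, 0),
      -6 * x (1, 0) + 4 * x (0, 1) - 4 * x (1, 1) + 3 * x (0, 2),
      6 * x (1, 0) - 3 * x (0, 1) + 6 * x (1, 1) - 1 * x (0, 2)],
    ![8 * x (1, 0) - 6 * x (0, 1) + 3 * x (1, 1) - 6 * x (0, 2),
      -3 * x (1, 0) + 4 * x (0, 1) + 3 * x (1, 1) + 6 * x (0, 2),
      x (1, 2)]] p.1 p.2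

/-- the linear automorphism acting on the middle block -/
def G : K0 →ₗ[ℤ] K0 where
  toFun := Gfun
  map_add' x y := by
    ext ⟨a, b⟩
    fin_cases a <;> fin_cases b <;> simp [Gfun] <;> ring
  map_smul' c x := by
    ext ⟨a, b⟩
    fin_cases a <;> fin_cases b <;> simp [Gfun] <;> ring

lemma G_apply (x : K0) : G x = Gfun x := rfl

lemma G_surj : Function.Surjective G := by
  intro x
  refine ⟨Hfun x, ?_⟩
  rw [G_apply]
  ext ⟨a, b⟩
  fin_cases a <;> fin_cases b <;> simp [Gfun, Hfun] <;> ring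

/-- the middle block -/
def InB (x : K0) : Prop := x (0, 0) = 0 ∧ x (1, 2) = 0

lemma G_InB {x : K0} (h : InB x) : InB (G x) := by
  rw [G_apply]
  exact ⟨by simpa [Gfun] using h.1, by simpa [Gfun] using h.2⟩

lemma chi_G {x y : K0} (hx : InB x) (hy : InB y) : chi (G x) (G y) = chi x y := by
  rw [chi_eq, chi_eq, G_apply, G_apply]
  simp only [Gfun, Fin.isValue, Matrix.cons_val_zero, Matrix.cons_val_one, Matrix.cons_val, hx.1,
    hx.2, hy.1, hy.2]
  ring

/-- the hyperbolic element acting on the block -/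
def D2 : SL(2, ℤ) := ⟨!![11, -3; 15, -4], by decide⟩

lemma nu_G {x : K0} (hx : InB x) : nu (G x) = (D2 : Matrix (Fin 2) (Fin 2) ℤ) * nu x := by
  have h1 := hx.1
  have h2 := hx.2
  rw [G_apply]
  ext i j
  fin_cases i <;> fin_cases j <;>
    simp [nu, Gfun, D2, Matrix.mul_apply, Fin.sum_univ_two, h1, h2] <;> ring

lemma Gpow_InB {x : K0} (h : InB x) (k : ℕ) : InB ((G ^ k) x) := by
  induction k with
  | zero => simpa using h
  | succ n ih =>
    rw [pow_succ', Module.End.mul_apply]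
    exact G_InB ih

lemma chi_Gpow {x y : K0} (hx : InB x) (hy : InB y) (k : ℕ) :
    chi ((G ^ k) x) ((G ^ k) y) = chi x y := by
  induction k with
  | zero => simp
  | succ n ih =>
    rw [pow_succ', Module.End.mul_apply, Module.End.mul_apply,
      chi_G (Gpow_InB hx n) (Gpow_InB hy n), ih]

lemma nu_Gpow {x : K0} (hx : InB x) (k : ℕ) :
    nu ((G ^ k) x) = ((D2 ^ k : SL(2, ℤ)) : Matrix (Fin 2) (Fin 2) ℤ) * nu x := by
  induction k with
  | zero => simp
  | succ n ih =>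
    rw [pow_succ', Module.End.mul_apply, nu_G (Gpow_InB hx n), ih, pow_succ',
      Matrix.SpecialLinearGroup.coe_mul, Matrix.mul_assoc]

lemma nuSL_Gpow {x : K0} (hx : InB x) (h : chi x x = 1) (k : ℕ) :
    nuSL ((G ^ k) x) = D2 ^ k * nuSL x := by
  apply Subtype.ext
  show (nuSL _ : Matrix (Fin 2) (Fin 2) ℤ) = ((D2 ^ k * nuSL x : SL(2, ℤ)) : Matrix (Fin 2) (Fin 2) ℤ)
  rw [nuSL_coe (by rw [chi_Gpow hx hx, h]), nu_Gpow hx, Matrix.SpecialLinearGroup.coe_mul,
    nuSL_coe h]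

/-- the standard system `O, O(1,0), O(0,1), O(1,1), O(0,2), O(1,2)` -/
def e : Fin 6 → K0 :=
  ![Pi.single (0, 0) 1, Pi.single (1, 0) 1, Pi.single (0, 1) 1, Pi.single (1, 1) 1,
    Pi.single (0, 2) 1, Pi.single (1, 2) 1]

/-- the family -/
def E (k : ℕ) : Fin 6 → K0 := fun i => (G ^ k) (e i)

lemma G_e0 (k : ℕ) : (G ^ k) (e 0) = e 0 := by
  induction k with
  | zero => simp
  | succ n ih =>
    rw [pow_succ', Module.End.mul_apply, ih, G_apply]
    ext ⟨a, b⟩
    fin_cases a <;> fin_cases b <;> simp [Gfun, e]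

lemma G_e5 (k : ℕ) : (G ^ k) (e 5) = e 5 := by
  induction k with
  | zero => simp
  | succ n ih =>
    rw [pow_succ', Module.End.mul_apply, ih, G_apply]
    ext ⟨a, b⟩
    fin_cases a <;> fin_cases b <;> simp [Gfun, e]

lemma e_InB (i : Fin 6) (h0 : i ≠ 0) (h5 : i ≠ 5) : InB (e i) := by
  fin_cases i <;> simp [InB, e] at h0 h5 ⊢

lemma chi_e (i j : Fin 6) (hij : i < j) : chi (e j) (e i) = 0 := by
  rw [chi_eq]
  fin_cases i <;> fin_cases j <;> simp [e] at hij ⊢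

lemma chi_e_self (i : Fin 6) : chi (e i) (e i) = 1 := by
  rw [chi_eq]
  fin_cases i <;> simp [e]

lemma chi_e0 {x : K0} (hx : InB x) : chi x (e 0) = 0 := by
  rw [chi_eq]; simp [e, hx.1]

lemma chi_e5 {x : K0} (hx : InB x) : chi (e 5) x = 0 := by
  rw [chi_eq]; simp [e, hx.2]

lemma span_e : Submodule.span ℤ (Set.range e) = ⊤ := by
  rw [eq_top_iff]
  intro x _
  have hx : x = x (0, 0) • e 0 + x (1, 0) • e 1 + x (0, 1) • e 2 + x (1, 1) • e 3 +
      x (0, 2) • e 4 + x (1, 2) • e 5 := by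
    ext ⟨a, b⟩
    fin_cases a <;> fin_cases b <;> simp [e]
  rw [hx]
  have h : ∀ i, e i ∈ Submodule.span ℤ (Set.range e) := fun i => Submodule.subset_span ⟨i, rfl⟩
  exact add_mem (add_mem (add_mem (add_mem (add_mem (Submodule.smul_mem _ _ (h 0))
    (Submodule.smul_mem _ _ (h 1))) (Submodule.smul_mem _ _ (h 2))) (Submodule.smul_mem _ _ (h 3)))
    (Submodule.smul_mem _ _ (h 4))) (Submodule.smul_mem _ _ (h 5))

lemma Gpow_surj (k : ℕ) : Function.Surjective (G ^ k) := by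
  induction k with
  | zero => intro x; exact ⟨x, by simp⟩
  | succ n ih =>
    rw [pow_succ']
    exact G_surj.comp ih

theorem E_exc (k : ℕ) : IsExceptional (E k) := by
  refine ⟨fun i => ?_, fun i j hij => ?_, ?_⟩
  · by_cases h0 : i = 0
    · subst h0; rw [E, G_e0]; exact chi_e_self 0
    by_cases h5 : i = 5
    · subst h5; rw [E, G_e5]; exact chi_e_self 5
    rw [E, chi_Gpow (e_InB i h0 h5) (e_InB i h0 h5)]
    exact chi_e_self i
  · have hj0 : j ≠ 0 := by rintro rfl; exact absurd hij (by simp)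
    have hi5 : i ≠ 5 := by rintro rfl; exact absurd hij (by fin_cases j <;> simp)
    by_cases hi0 : i = 0
    · subst hi0
      rw [E, E, G_e0]
      by_cases hj5 : j = 5
      · subst hj5; rw [G_e5]; exact chi_e 0 5 (by decide)
      · exact chi_e0 (Gpow_InB (e_InB j hj0 hj5) k)
    · by_cases hj5 : j = 5
      · subst hj5
        rw [E, E, G_e5]
        exact chi_e5 (Gpow_InB (e_InB i hi0 hi5) k)
      · rw [E, E, chi_Gpow (e_InB j hj0 hj5) (e_InB i hi0 hi5)]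
        exact chi_e i j hij
  · have : Set.range (E k) = (G ^ k) '' Set.range e := by
      rw [← Set.range_comp]; rfl
    rw [this, ← Submodule.map_span, span_e, Submodule.map_top]
    exact LinearMap.range_eq_top.mpr (Gpow_surj k)

end Pool.Agent.BraidOrbits
end

section

namespace Pool.Agent.BraidOrbits

open Matrix MatrixGroups ModularGroup

/-- the lower triangular generator -/
def Lm : SL(2, ℤ) := ⟨!![1, 0; 1, 1], by decide⟩

/-- affine image of the upper triangular generator -/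
def aT : Aff := ⟨⟨!![0, 1; -1, 1], by decide⟩, ![-1, 0]⟩
/-- affine image of the lower triangular generator -/
def aL : Aff := ⟨⟨!![1, -1; 1, 0], by decide⟩, ![-1, -1]⟩

lemma Phi_T' : Phi T = aT := by
  rw [Phi_T]
  exact Aff.ext (by decide) (by decide)

lemma Phi_L : Phi Lm = aL := by
  have h : Lm = S * T⁻¹ * S⁻¹ := by decide
  rw [h, map_mul, map_mul, map_inv, map_inv, Phi_T', Phi_S]
  exact Aff.ext (by decide) (by decide)

/-- the translation attached to `D2` -/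
def aD : Aff := ⟨1, ![-4, 0]⟩

lemma Phi_D2 : Phi D2 = aD := by
  have h : D2 = (Lm ^ 3 * T⁻¹ * Lm ^ 3 * T⁻¹ * (Lm ^ 2)⁻¹) ^ 2 := by decide
  rw [h, map_pow, map_mul, map_mul, map_mul, map_mul, map_inv, map_inv, map_pow, map_pow, Phi_T',
    Phi_L]
  exact Aff.ext (by decide) (by decide)

lemma aD_pow (k : ℕ) : aD ^ k = ⟨1, ![-4 * (k : ℤ), 0]⟩ := by
  induction k with
  | zero => exact Aff.ext rfl (by ext i; fin_cases i <;> simp)
  | succ n ih =>
    rw [pow_succ', ih]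
    refine Aff.ext (by simp [aD]) ?_
    ext i
    fin_cases i
    · simp [aD]; ring
    · simp [aD]

/-- the images of the standard system -/
def w0 : Fin 6 → Aff :=
  ![⟨1, ![0, 0]⟩, ⟨-1, ![0, -2]⟩, ⟨1, ![-2, -2]⟩, ⟨-1, ![2, 0]⟩, ⟨1, ![-2, -4]⟩, ⟨-1, ![2, 2]⟩]

lemma nuSL_e (i : Fin 6) : nuSL (e i) =
    (![1, Lm ^ 3, Lm * T, Lm ^ 4 * T, Lm ^ 2 * T ^ 2, Lm ^ 5 * T ^ 2] : Fin 6 → SL(2, ℤ)) i := by
  apply Subtype.ext
  show (nuSL (e i) : Matrix (Fin 2) (Fin 2) ℤ) = _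
  rw [nuSL_coe (chi_e_self i)]
  fin_cases i
  · decide
  · decide
  · decide
  · decide
  · decide
  · decide

lemma Phi_e (i : Fin 6) : Phi (nuSL (e i)) = w0 i := by
  rw [nuSL_e]
  fin_cases i
  · show Phi 1 = _
    rw [map_one]
    exact Aff.ext (by decide) (by decide)
  · show Phi (Lm ^ 3) = _
    rw [map_pow, Phi_L]
    exact Aff.ext (by decide) (by decide)
  · show Phi (Lm * T) = _
    rw [map_mul, Phi_L, Phi_T']
    exact Aff.ext (by decide) (by decide)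
  · show Phi (Lm ^ 4 * T) = _
    rw [map_mul, map_pow, Phi_L, Phi_T']
    exact Aff.ext (by decide) (by decide)
  · show Phi (Lm ^ 2 * T ^ 2) = _
    rw [map_mul, map_pow, map_pow, Phi_L, Phi_T']
    exact Aff.ext (by decide) (by decide)
  · show Phi (Lm ^ 5 * T ^ 2) = _
    rw [map_mul, map_pow, map_pow, Phi_L, Phi_T']
    exact Aff.ext (by decide) (by decide)

/-- the images of the system number `k` -/
def w (k : ℕ) : Fin 6 → Aff :=
  ![⟨1, ![0, 0]⟩, ⟨-1, ![-4 * (k : ℤ), -2]⟩, ⟨1, ![-2 - 4 * (k : ℤ), -2]⟩,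
    ⟨-1, ![2 - 4 * (k : ℤ), 0]⟩, ⟨1, ![-2 - 4 * (k : ℤ), -4]⟩, ⟨-1, ![2, 2]⟩]

lemma Phi_E_mid (k : ℕ) (i : Fin 6) (h0 : i ≠ 0) (h5 : i ≠ 5) :
    Phi (nuSL (E k i)) = ⟨1, ![-4 * (k : ℤ), 0]⟩ * w0 i := by
  rw [E, nuSL_Gpow (e_InB i h0 h5) (chi_e_self i), map_mul, map_pow, Phi_D2, aD_pow, Phi_e]

lemma Phi_E (k : ℕ) : (fun i => Phi (nuSL (E k i))) = w k := by
  funext i
  show Phi (nuSL (E k i)) = w k i
  fin_cases i
  · show Phi (nuSL (E k 0)) = _
    rw [E, G_e0, Phi_e]; rfl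
  · show Phi (nuSL (E k 1)) = _
    rw [Phi_E_mid k 1 (by decide) (by decide)]
    refine Aff.ext (by simp [w, w0]) ?_
    ext i; fin_cases i <;> simp [w, w0]
  · show Phi (nuSL (E k 2)) = _
    rw [Phi_E_mid k 2 (by decide) (by decide)]
    refine Aff.ext (by simp [w, w0]) ?_
    ext i; fin_cases i
    · simp [w, w0]; ring
    · simp [w, w0]
  · show Phi (nuSL (E k 3)) = _
    rw [Phi_E_mid k 3 (by decide) (by decide)]
    refine Aff.ext (by simp [w, w0]) ?_
    ext i; fin_cases i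
    · simp [w, w0]; ring
    · simp [w, w0]
  · show Phi (nuSL (E k 4)) = _
    rw [Phi_E_mid k 4 (by decide) (by decide)]
    refine Aff.ext (by simp [w, w0]) ?_
    ext i; fin_cases i
    · simp [w, w0]; ring
    · simp [w, w0]
  · show Phi (nuSL (E k 5)) = _
    rw [E, G_e5, Phi_e]; rfl

lemma inv_w (k : ℕ) : inv (w k) = 16 - 64 * (k : ℤ) ^ 2 := by
  have h11 := neg_one_ne
  simp [inv, fin, stp, w, h11, h11.symm, wedge]
  ring

end Pool.Agent.BraidOrbits
end
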